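import Pool.Agent.Z15P.Z15.H.Stm2
import Pool.Agent.Helper273.Gen.P_common_zero

/-!
EXP: directions of high contact.
-/

set_option autoImplicit false

open FF FF.PP MvPolynomial

namespace Pool.Agent.Z15P.T2h69.H15

open Pool.Agent.Z15P.Z15.H Pool.Agent.Z15P.Z15.H.Stm

/-- the exponent `(d - j, j)` -/
noncomputable def ex (d j : ℕ) : Fin 2 →₀ ℕ := Finsupp.single 0 (d - j) + Finsupp.single 1 j

theorem ex_zero (d j : ℕ) : ex d j 0 = d - j := by simp [ex]

theorem ex_one (d j : ℕ) : ex d j 1 = j := by simp [ex]

theorem hom2_expand {R A : Type*} [CommRing R] [CommRing A] (Q : MvPolynomial (Fin 2) R) {d : ℕ}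
    (hQ : Q.IsHomogeneous d) (φ : R →+* A) (α β : A) :
    eval₂ φ ![α, β] Q =
      ∑ j ∈ Finset.range (d + 1), φ (Q.coeff (ex d j)) * α ^ (d - j) * β ^ j := by
  classical
  rw [eval₂_eq']
  have hinj : Set.InjOn (ex d) (Finset.range (d + 1) : Set ℕ) := by
    intro j _ j' _ h
    have := DFunLike.congr_fun h 1
    rwa [ex_one, ex_one] at this
  have h1 : Q.support ⊆ (Finset.range (d + 1)).image (ex d) := by
    intro s hs
    have h2 := hQ.degree_eq_sum_deg_support hs
    have h3 : s 0 + s 1 = d := by
      rw [h2, Finset.sum_subset (Finset.subset_univ s.support) (by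
        intro i _ hi
        exact Finsupp.notMem_support_iff.1 hi), Fin.sum_univ_two]
    rw [Finset.mem_image]
    refine ⟨s 1, by rw [Finset.mem_range]; omega, ?_⟩
    ext i
    fin_cases i
    · show ex d (s 1) 0 = s 0
      rw [ex_zero]
      omega
    · show ex d (s 1) 1 = s 1
      rw [ex_one]
  rw [Finset.sum_subset h1 (by
    intro s _ hs
    rw [notMem_support_iff.1 hs, map_zero, zero_mul]), Finset.sum_image hinj]
  refine Finset.sum_congr rfl fun j _ => ?_
  rw [Fin.prod_univ_two, ex_zero, ex_one]
  simp only [Matrix.cons_val_zero, Matrix.cons_val_one]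
  ring

/-- common zeros of homogeneous polynomials -/
theorem common_zero' {L I J : Type} [Field L] [IsAlgClosed L] [Fintype I] [Fintype J]
    (h : Fintype.card J < Fintype.card I) (F : J → MvPolynomial I L) (e : J → ℕ) (he : ∀ i, 0 < e i)
    (hF : ∀ i, (F i).IsHomogeneous (e i)) :
    ∃ c : I → L, c ≠ 0 ∧ ∀ i, MvPolynomial.eval c (F i) = 0 := by
  let ε := Fintype.equivFin I
  let δ := Fintype.equivFin J
  obtain ⟨c, hc, hc'⟩ := Pool.Agent.Helper273.Sup.common_zero h
    (fun i => MvPolynomial.rename ε (F (δ.symm i))) (fun i => e (δ.symm i)) (fun i => he _)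
    (fun i => (hF _).rename_isHomogeneous)
  refine ⟨c ∘ ε, ?_, fun i => ?_⟩
  · intro h
    apply hc
    funext j
    have h1 := congrFun h (ε.symm j)
    simpa using h1
  · have h1 := hc' (δ i)
    rw [MvPolynomial.eval_rename] at h1
    simpa using h1

section

variable (k : Type) {I L : Type} [Field k] [Field L] [Algebra k L]

/-- polynomials in two variables whose coefficients of `X 0 ^ i * X 1 ^ j` are homogeneous
of degree `j` -/
noncomputable def gr (I L : Type) [Field L] [Algebra k L] :
    Subalgebra k (MvPolynomial (Fin 2) (MvPolynomial I L)) where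
  carrier := {p | ∀ s, (p.coeff s).IsHomogeneous (s 1)}
  mul_mem' := by
    classical
    intro p q hp hq s
    rw [coeff_mul]
    refine IsHomogeneous.sum _ _ _ fun ij hij => ?_
    rw [← Finset.HasAntidiagonal.mem_antidiagonal.1 hij, Finsupp.add_apply]
    exact (hp _).mul (hq _)
  add_mem' := by
    intro p q hp hq s
    rw [coeff_add]
    exact (hp s).add (hq s)
  algebraMap_mem' := by
    classical
    intro z s
    have h1 : algebraMap k (MvPolynomial (Fin 2) (MvPolynomial I L)) z = C (C (algebraMap k L z)) := rfl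
    rw [h1, coeff_C]
    split_ifs with h
    · rw [← h]
      exact isHomogeneous_C _ _
    · exact isHomogeneous_zero _ _ _

theorem gr_mem {p : MvPolynomial (Fin 2) (MvPolynomial I L)} :
    p ∈ gr k I L ↔ ∀ s, (p.coeff s).IsHomogeneous (s 1) := Iff.rfl

theorem gr_X (i : Fin 2) (Y : MvPolynomial I L) (hY : Y.IsHomogeneous (i : ℕ)) :
    (X i * C Y : MvPolynomial (Fin 2) (MvPolynomial I L)) ∈ gr k I L := by
  classical
  intro s
  rw [mul_comm, coeff_C_mul, coeff_X]
  split_ifs with h
  · rw [mul_one, ← h]
    fin_cases i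
    · simpa using hY
    · simpa using hY
  · rw [mul_zero]
    exact isHomogeneous_zero _ _ _

end

theorem t_EXP : T_EXP := by
  classical
  intro k L κ _ _ _ _ _ d f hf x S J h0 hcard
  set Y : κ → MvPolynomial S L := fun i => if h : i ∈ S then X ⟨i, h⟩ else 0 with hY
  have hY1 : ∀ i, (Y i).IsHomogeneous 1 := by
    intro i
    simp only [hY]
    split_ifs with h
    · exact isHomogeneous_X _ _
    · exact isHomogeneous_zero _ _ _
  set g : κ → MvPolynomial (Fin 2) (MvPolynomial S L) := fun i => X 0 * C (C (x i)) + X 1 * C (Y i)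
    with hg
  set Q : MvPolynomial (Fin 2) (MvPolynomial S L) := aeval g f with hQ
  have hQh : Q.IsHomogeneous d := by
    have h1 := hf.aeval g (n := 1) (fun i => by
      refine IsHomogeneous.add ?_ ?_
      · exact (isHomogeneous_X _ _).mul (isHomogeneous_C _ _)
      · exact (isHomogeneous_X _ _).mul (isHomogeneous_C _ _))
    rwa [one_mul] at h1
  have hgg : ∀ i, g i ∈ gr k S L := fun i =>
    add_mem (gr_X k 0 _ (isHomogeneous_C _ _)) (gr_X k 1 _ (hY1 i))
  have hQg : Q ∈ gr k S L := by
    rw [hQ]
    clear_value Q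
    clear hf hQh hQ
    induction f using MvPolynomial.induction_on with
    | C a =>
      rw [aeval_C]
      exact Subalgebra.algebraMap_mem _ _
    | add p q hp hq =>
      rw [map_add]
      exact add_mem hp hq
    | mul_X p i hp =>
      rw [map_mul, aeval_X]
      exact mul_mem hp (hgg i)
  obtain ⟨w, hw0, hw⟩ := common_zero' (I := S) (J := J) (L := L) (by simpa using hcard)
    (fun j => Q.coeff (ex d j)) (fun j => j) (fun j => by
      rcases Nat.eq_zero_or_pos (j : ℕ) with h | h
      · exact absurd (h ▸ j.2) h0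
      · exact h) (fun j => by
      have h1 := hQg (ex d j)
      rwa [ex_one] at h1)
  refine ⟨fun i => if h : i ∈ S then w ⟨i, h⟩ else 0, fun j => eval w (Q.coeff (ex d j)), ?_, ?_, ?_, ?_⟩
  · intro h
    apply hw0
    funext i
    have h1 := congrFun h i
    simpa using h1
  · intro i hi
    simp [hi]
  · intro A _ _ _ _ α β
    have h1 := hom2_expand Q hQh ((algebraMap L A).comp (eval w)) α β
    refine Eq.trans ?_ h1
    have h2 : (eval₂Hom ((algebraMap L A).comp (eval w)) ![α, β]) Q =
      (aeval (fun i => (eval₂Hom ((algebraMap L A).comp (eval w)) ![α, β]) (g i)) f : A) := by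
      rw [hQ]
      have h3 : ((eval₂Hom ((algebraMap L A).comp (eval w)) ![α, β]).comp
          (algebraMap k (MvPolynomial (Fin 2) (MvPolynomial S L)))) = algebraMap k A := by
        ext z
        have h4 : algebraMap k (MvPolynomial (Fin 2) (MvPolynomial S L)) z = C (C (algebraMap k L z)) :=
          rfl
        rw [RingHom.comp_apply, h4]
        simp [← IsScalarTower.algebraMap_apply]
      rw [aeval_def, aeval_def, hom_eval₂, h3]
    rw [coe_eval₂Hom] at h2
    rw [h2]
    congr 2
    funext i
    simp only [hg, hY]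
    by_cases h : i ∈ S
    · simp [h]
    · simp [h]
  · intro j hj
    exact hw ⟨j, hj⟩

end Pool.Agent.Z15P.T2h69.H15
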